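import Pool.Agent.H47.VT.Targets6

/-!
# (SGP) Siegel's theorem for primitive characters
-/

set_option autoImplicit false

open Complex MeasureTheory Set

namespace Pool.Agent.H64.VT.SGP

open Pool.Agent.H47.VT
open Pool.Agent.H30.BV (cv DS)

/-- (SGC) the Dirichlet series of a triple convolution (with the Dirichlet convolution on the
left-hand side). -/
def T_SGC' : Prop :=
  ∀ (f₁ f₂ f₃ : ArithmeticFunction ℝ) (B : ℝ), (∀ n, |f₁ n| ≤ 1 ∧ |f₂ n| ≤ 1 ∧ |f₃ n| ≤ 1) →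
    (∀ N : ℕ, |∑ n ∈ Finset.Icc 1 N, f₁ n| ≤ B ∧ |∑ n ∈ Finset.Icc 1 N, f₂ n| ≤ B ∧
      |∑ n ∈ Finset.Icc 1 N, f₃ n| ≤ B) → ∀ s : ℝ, 3 / 4 < s →
    Pf (⇑(f₁ * (f₂ * f₃) : ArithmeticFunction ℝ)) s = Pf f₁ s * Pf f₂ s * Pf f₃ s

section Chars

variable {q : ℕ}

private lemma norm_cv (χ : DirichletCharacter ℂ q) (n : ℕ) : ‖cv χ n‖ ≤ 1 :=
  DirichletCharacter.norm_le_one χ _

private lemma rv_apply (χ : DirichletCharacter ℂ q) {n : ℕ} (hn : n ≠ 0) :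
    rv χ n = (cv χ n).re := by
  simp [rv, hn]

private lemma rv_le (χ : DirichletCharacter ℂ q) (n : ℕ) : |rv χ n| ≤ 1 := by
  by_cases hn : n = 0
  · rw [hn, ArithmeticFunction.map_zero, abs_zero]
    exact zero_le_one
  · rw [rv_apply χ hn]
    exact (Complex.abs_re_le_norm _).trans (norm_cv χ n)

private lemma rv_one (χ : DirichletCharacter ℂ q) : rv χ 1 = 1 := by
  rw [rv_apply χ one_ne_zero]
  unfold cv
  rw [Nat.cast_one, map_one, Complex.one_re]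

private lemma cv_im (χ : DirichletCharacter ℂ q) (h : χ ^ 2 = 1) (n : ℕ) : (cv χ n).im = 0 := by
  unfold cv
  by_cases hu : IsUnit (n : ZMod q)
  · have h1 : (χ (n : ZMod q)) ^ 2 = 1 := by
      rw [← MulChar.pow_apply' χ two_ne_zero, h, MulChar.one_apply hu]
    have h2 : (χ (n : ZMod q) - 1) * (χ (n : ZMod q) + 1) = 0 := by
      linear_combination h1
    rcases mul_eq_zero.1 h2 with h3 | h3
    · rw [sub_eq_zero.1 h3, Complex.one_im]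
    · rw [eq_neg_of_add_eq_zero_left h3, Complex.neg_im, Complex.one_im, neg_zero]
  · rw [MulChar.map_nonunit χ hu, Complex.zero_im]

private lemma rv_sum (hCB : Pool.Agent.H30.BV.T_CB) (χ : DirichletCharacter ℂ q) (hq : 1 ≤ q)
    (h1 : χ ≠ 1) (N : ℕ) : |∑ n ∈ Finset.Icc 1 N, rv χ n| ≤ q := by
  have hq1 : q ≠ 1 := fun h => h1 (DirichletCharacter.level_one' χ h)
  have h0 : cv χ 0 = 0 := by
    unfold cv
    rw [Nat.cast_zero]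
    exact DirichletCharacter.map_zero' χ hq1
  have h2 : ∑ n ∈ Finset.Icc 1 N, rv χ n = (∑ n ∈ Finset.range (N + 1), cv χ n).re := by
    rw [Finset.range_eq_Ico, Finset.sum_eq_sum_Ico_succ_bot (Nat.succ_pos N), h0, zero_add,
      Complex.re_sum]
    refine Finset.sum_congr ?_ fun n hn => ?_
    · ext n
      simp only [Finset.mem_Icc, Finset.mem_Ico]
      omega
    · rw [Finset.mem_Ico] at hn
      exact rv_apply χ (by omega)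
  rw [h2]
  exact (Complex.abs_re_le_norm _).trans (hCB q χ hq h1 (N + 1))

end Chars

section Prod

variable {q₁ q₂ : ℕ}

/-- the product of two characters -/
private noncomputable def pc (χ₁ : DirichletCharacter ℂ q₁) (χ₂ : DirichletCharacter ℂ q₂) :
    DirichletCharacter ℂ (q₂ * q₁) :=
  DirichletCharacter.changeLevel (q₂.dvd_mul_right q₁) χ₂ *
    DirichletCharacter.changeLevel (q₁.dvd_mul_left q₂) χ₁

private lemma cv_pc (χ₁ : DirichletCharacter ℂ q₁) (χ₂ : DirichletCharacter ℂ q₂) (n : ℕ) :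
    cv (pc χ₁ χ₂) n = cv χ₁ n * cv χ₂ n := by
  unfold cv pc
  by_cases hc : Nat.Coprime n (q₂ * q₁)
  · have hc' : IsCoprime (n : ℤ) ((q₂ * q₁ : ℕ) : ℤ) := Nat.isCoprime_iff_coprime.2 hc
    have e1 := DirichletCharacter.changeLevel_eq_cast_of_dvd' χ₂ (q₂.dvd_mul_right q₁) hc'
    have e2 := DirichletCharacter.changeLevel_eq_cast_of_dvd' χ₁ (q₁.dvd_mul_left q₂) hc'
    rw [Int.cast_natCast] at e1 e2
    rw [Int.cast_natCast] at e1 e2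
    rw [MulChar.mul_apply, e1, e2, mul_comm]
  · rw [MulChar.map_nonunit _ (by rwa [ZMod.isUnit_iff_coprime])]
    by_cases h2 : Nat.Coprime n q₂
    · have h1 : ¬ Nat.Coprime n q₁ := fun h1 => hc (Nat.Coprime.mul_right h2 h1)
      rw [MulChar.map_nonunit χ₁ (by rwa [ZMod.isUnit_iff_coprime]), zero_mul]
    · rw [MulChar.map_nonunit χ₂ (by rwa [ZMod.isUnit_iff_coprime]), mul_zero]

private lemma rv_pc (χ₁ : DirichletCharacter ℂ q₁) (χ₂ : DirichletCharacter ℂ q₂)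
    (h₁ : χ₁ ^ 2 = 1) (h₂ : χ₂ ^ 2 = 1) : (rv χ₁).pmul (rv χ₂) = rv (pc χ₁ χ₂) := by
  ext n
  by_cases hn : n = 0
  · rw [hn, ArithmeticFunction.map_zero, ArithmeticFunction.map_zero]
  · rw [ArithmeticFunction.pmul_apply, rv_apply χ₁ hn, rv_apply χ₂ hn, rv_apply _ hn, cv_pc,
      Complex.mul_re, cv_im χ₁ h₁, cv_im χ₂ h₂, mul_zero, sub_zero]

private lemma pc_sq (χ₁ : DirichletCharacter ℂ q₁) (χ₂ : DirichletCharacter ℂ q₂)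
    (h₁ : χ₁ ^ 2 = 1) (h₂ : χ₂ ^ 2 = 1) : pc χ₁ χ₂ ^ 2 = 1 := by
  unfold pc
  rw [mul_pow, ← map_pow, ← map_pow, h₁, h₂, map_one, map_one, mul_one]

private lemma pc_ne (χ₁ : DirichletCharacter ℂ q₁) (χ₂ : DirichletCharacter ℂ q₂)
    (hq₁ : 1 ≤ q₁) (hq : q₁ < q₂) (hp : χ₂.IsPrimitive) : pc χ₁ χ₂ ≠ 1 := by
  intro h
  have : NeZero q₂ := ⟨by omega⟩
  unfold pc at h
  have h1 := eq_inv_of_mul_eq_one_left h
  rw [← map_inv] at h1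
  have h2 := DirichletCharacter.factorsThrough_gcd χ₂ χ₁⁻¹ h1
  have h3 : χ₂.conductor ≤ q₂.gcd q₁ :=
    Nat.sInf_le ((DirichletCharacter.mem_conductorSet_iff _).2 h2)
  rw [(DirichletCharacter.isPrimitive_def _).1 hp] at h3
  have h4 : q₂.gcd q₁ ≤ q₁ := Nat.gcd_le_right _ (by omega)
  omega

end Prod

/-- a lower bound for small moduli -/
private lemma small (hSGE : T_SGE) (q₁ : ℕ) (hq₁ : 1 ≤ q₁) :
    ∃ c : ℝ, 0 < c ∧ ∀ (q : ℕ) (χ : DirichletCharacter ℂ q), 1 ≤ q → q ≤ q₁ → χ ≠ 1 →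
      χ ^ 2 = 1 → c ≤ Pf (rv χ) 1 := by
  classical
  obtain ⟨C, -, hC⟩ := hSGE
  let T := (n : Fin q₁) × DirichletCharacter ℂ (n.1 + 1)
  let F : T → ℝ := fun x => if x.2 ≠ 1 ∧ x.2 ^ 2 = 1 then Pf (rv x.2) 1 else 1
  have : ∀ n : Fin q₁, Finite (DirichletCharacter ℂ (n.1 + 1)) := fun n => inferInstance
  have : Finite T := inferInstance
  have : Nonempty T := ⟨⟨⟨0, hq₁⟩, 1⟩⟩
  obtain ⟨x₀, hx₀⟩ := Finite.exists_min F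
  have hpos : 0 < F x₀ := by
    simp only [F]
    split_ifs with h
    · exact (hC _ x₀.2 (by omega) h.1 h.2).2.2.1 1 le_rfl
    · exact one_pos
  refine ⟨F x₀, hpos, fun q χ hq hqq h1 h2 => ?_⟩
  obtain ⟨m, rfl⟩ : ∃ m, q = m + 1 := ⟨q - 1, by omega⟩
  have h3 := hx₀ ⟨⟨m, by omega⟩, χ⟩
  refine h3.trans (le_of_eq ?_)
  simp only [F]
  rw [if_pos ⟨h1, h2⟩]

/-- positivity without zeros -/
private lemma pos_of_no_zero {F : ℝ → ℝ} {β₀ : ℝ} (h0 : 0 < β₀) (hβ : β₀ < 1)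
    (hF : ContinuousOn F (Ioi 0)) (h1 : 0 < F 1) (hz : ∀ β, β₀ ≤ β → β < 1 → F β ≠ 0) :
    0 < F β₀ := by
  by_contra h
  push Not at h
  have hc : ContinuousOn F (Icc β₀ 1) := hF.mono fun x hx => lt_of_lt_of_le h0 hx.1
  obtain ⟨x, hx, hx0⟩ := intermediate_value_Icc hβ.le hc ⟨h, h1.le⟩
  rcases lt_or_eq_of_le hx.2 with h2 | h2
  · exact hz x hx.1 h2 hx0
  · rw [h2] at hx0
    linarith

/-- (SGP) Siegel's theorem for primitive characters. -/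
theorem pf_SGP (hSGA : T_SGA) (hSGB : T_SGB) (hSGC : T_SGC') (hSGD : T_SGD) (hSGE : T_SGE)
    (hCB : Pool.Agent.H30.BV.T_CB) : T_SGP := by
  intro ε₀ hε₀
  -- reduction to `ε ≤ 1`
  obtain ⟨ε, hε, hε1, hεε⟩ : ∃ ε : ℝ, 0 < ε ∧ ε ≤ 1 ∧ ε ≤ ε₀ :=
    ⟨min ε₀ 1, lt_min hε₀ one_pos, min_le_right _ _, min_le_left _ _⟩
  suffices H : ∃ c : ℝ, 0 < c ∧ ∀ (q : ℕ) (χ : DirichletCharacter ℂ q), 1 ≤ q →
      χ.IsPrimitive → χ ≠ 1 → χ ^ 2 = 1 → c * (q : ℝ) ^ (-ε) ≤ Pf (rv χ) 1 by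
    obtain ⟨c, hc, h⟩ := H
    refine ⟨c, hc, fun q χ hq hp h1 h2 => le_trans ?_ (h q χ hq hp h1 h2)⟩
    refine mul_le_mul_of_nonneg_left ?_ hc.le
    exact Real.rpow_le_rpow_of_exponent_le (by exact_mod_cast hq) (by linarith)
  obtain ⟨CE, hCE, hE⟩ := id hSGE
  obtain ⟨β₀, hβ₀⟩ : ∃ β₀ : ℝ, β₀ = 1 - ε / 48 := ⟨_, rfl⟩
  have hβ78 : 7 / 8 ≤ β₀ := by rw [hβ₀]; linarith
  have hβ1 : β₀ < 1 := by rw [hβ₀]; linarith
  by_cases hex : ∃ (q₁ : ℕ) (χ₁ : DirichletCharacter ℂ q₁), 1 ≤ q₁ ∧ χ₁ ≠ 1 ∧ χ₁ ^ 2 = 1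
  swap
  · refine ⟨1, one_pos, fun q χ hq hp h1 h2 => ?_⟩
    exact absurd ⟨q, χ, hq, h1, h2⟩ hex
  -- the auxiliary character
  obtain ⟨q₁, χ₁, β, hq₁, h11, h12, hββ, hβlt, hnn⟩ : ∃ (q₁ : ℕ) (χ₁ : DirichletCharacter ℂ q₁)
      (β : ℝ), 1 ≤ q₁ ∧ χ₁ ≠ 1 ∧ χ₁ ^ 2 = 1 ∧ β₀ ≤ β ∧ β < 1 ∧
        ∀ (q₂ q₃ : ℕ) (χ₂ : DirichletCharacter ℂ q₂) (χ₃ : DirichletCharacter ℂ q₃), 1 ≤ q₂ →
          1 ≤ q₃ → χ₂ ≠ 1 → χ₂ ^ 2 = 1 → χ₃ ≠ 1 → χ₃ ^ 2 = 1 →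
            0 ≤ Pf (rv χ₁) β * Pf (rv χ₂) β * Pf (rv χ₃) β := by
    by_cases hz : ∃ (q₁ : ℕ) (χ₁ : DirichletCharacter ℂ q₁) (β : ℝ), 1 ≤ q₁ ∧ χ₁ ≠ 1 ∧
        χ₁ ^ 2 = 1 ∧ β₀ ≤ β ∧ β < 1 ∧ Pf (rv χ₁) β = 0
    · obtain ⟨q₁, χ₁, β, a1, a2, a3, a4, a5, a6⟩ := hz
      refine ⟨q₁, χ₁, β, a1, a2, a3, a4, a5, fun q₂ q₃ χ₂ χ₃ _ _ _ _ _ _ => ?_⟩
      rw [a6, zero_mul, zero_mul]
    · obtain ⟨q₁, χ₁, a1, a2, a3⟩ := hex
      have hp : ∀ (q : ℕ) (χ : DirichletCharacter ℂ q), 1 ≤ q → χ ≠ 1 → χ ^ 2 = 1 →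
          0 < Pf (rv χ) β₀ := by
        intro q χ hq h1 h2
        obtain ⟨b1, -, b3, -⟩ := hE q χ hq h1 h2
        refine pos_of_no_zero (by linarith) hβ1 b1 (b3 1 le_rfl) fun β h3 h4 h5 => ?_
        exact hz ⟨q, χ, β, hq, h1, h2, h3, h4, h5⟩
      refine ⟨q₁, χ₁, β₀, a1, a2, a3, le_rfl, hβ1, fun q₂ q₃ χ₂ χ₃ b2 b3 c2 d2 c3 d3 => ?_⟩
      exact (mul_pos (mul_pos (hp q₁ χ₁ a1 a2 a3) (hp q₂ χ₂ b2 c2 d2)) (hp q₃ χ₃ b3 c3 d3)).le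
  have hβ78' : 7 / 8 ≤ β := hβ78.trans hββ
  obtain ⟨CA, hCA, hA⟩ := hSGA
  obtain ⟨cB, hcB, hB⟩ := hSGB β hβ78' hβlt
  obtain ⟨cs, hcs, hsmall⟩ := small hSGE q₁ hq₁
  set C' : ℝ := max CA 1 with hC'
  have hC'1 : 1 ≤ C' := le_max_right _ _
  have hq₁r : (1 : ℝ) ≤ q₁ := by exact_mod_cast hq₁
  have hlog₁ : 0 < Real.log (q₁ + 2) := Real.log_pos (by linarith)
  -- the constant
  set Kc : ℝ := CE ^ 2 * Real.log (q₁ + 2) * ((3 * q₁) ^ (ε / 2) * (2 / ε)) with hKc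
  have hKc0 : 0 < Kc := by positivity
  set cm : ℝ := cB * C' ^ (-(ε / 6)) * (q₁ : ℝ) ^ (-(ε / 2)) / Kc with hcm
  have hcm0 : 0 < cm := by positivity
  refine ⟨min cs cm, lt_min hcs hcm0, fun q₂ χ₂ hq₂ hp₂ h21 h22 => ?_⟩
  have hq₂r : (1 : ℝ) ≤ q₂ := by exact_mod_cast hq₂
  rcases le_or_gt q₂ q₁ with hle | hlt
  · -- small moduli
    have h1 := hsmall q₂ χ₂ hq₂ hle h21 h22
    have h2 : (q₂ : ℝ) ^ (-ε) ≤ 1 := Real.rpow_le_one_of_one_le_of_nonpos hq₂r (by linarith)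
    calc min cs cm * (q₂ : ℝ) ^ (-ε) ≤ cs * 1 :=
          mul_le_mul (min_le_left _ _) h2 (by positivity) hcs.le
      _ ≤ _ := by linarith
  · -- large moduli
    have hne : pc χ₁ χ₂ ≠ 1 := pc_ne χ₁ χ₂ hq₁ hlt hp₂
    have hsq : pc χ₁ χ₂ ^ 2 = 1 := pc_sq χ₁ χ₂ h12 h22
    have hq₃ : 1 ≤ q₂ * q₁ := Nat.one_le_iff_ne_zero.2 (by positivity)
    obtain ⟨e1, -, e3, e4⟩ := hE q₁ χ₁ hq₁ h11 h12
    obtain ⟨f1, -, f3, f4⟩ := hE q₂ χ₂ hq₂ h21 h22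
    obtain ⟨g1, -, g3, g4⟩ := hE (q₂ * q₁) (pc χ₁ χ₂) hq₃ hne hsq
    set B : ℝ := (q₂ : ℝ) * q₁ with hBd
    have hB1 : 1 ≤ B := one_le_mul_of_one_le_of_one_le hq₂r hq₁r
    have hbd : ∀ n, |rv χ₁ n| ≤ 1 ∧ |rv χ₂ n| ≤ 1 ∧ |((rv χ₁).pmul (rv χ₂)) n| ≤ 1 := by
      intro n
      rw [rv_pc χ₁ χ₂ h12 h22]
      exact ⟨rv_le _ _, rv_le _ _, rv_le _ _⟩
    have hsum : ∀ N : ℕ, |∑ n ∈ Finset.Icc 1 N, rv χ₁ n| ≤ B ∧
        |∑ n ∈ Finset.Icc 1 N, rv χ₂ n| ≤ B ∧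
          |∑ n ∈ Finset.Icc 1 N, ((rv χ₁).pmul (rv χ₂)) n| ≤ B := by
      intro N
      rw [rv_pc χ₁ χ₂ h12 h22]
      refine ⟨(rv_sum hCB χ₁ hq₁ h11 N).trans ?_, (rv_sum hCB χ₂ hq₂ h21 N).trans ?_,
        (rv_sum hCB _ hq₃ hne N).trans ?_⟩
      · rw [hBd]
        nlinarith
      · rw [hBd]
        nlinarith
      · rw [hBd]
        push_cast
        exact le_rfl
    set g : ArithmeticFunction ℝ := rv χ₁ * (rv χ₂ * (rv χ₁).pmul (rv χ₂)) with hg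
    have hgs : ∀ N : ℕ, |∑ n ∈ Finset.Icc 1 N, g n| ≤ C' * B ^ 3 * (N : ℝ) ^ (3 / 4 : ℝ) := by
      intro N
      rcases Nat.eq_zero_or_pos N with rfl | hN
      · simp
      · refine (hA _ _ _ B hB1 hbd hsum N hN).trans ?_
        gcongr
        exact le_max_left _ _
    have hAA : 1 ≤ C' * B ^ 3 := one_le_mul_of_one_le_of_one_le hC'1 (one_le_pow₀ hB1)
    have hg1 : g 1 = 1 := by
      rw [hg, ArithmeticFunction.mul_apply_one, ArithmeticFunction.mul_apply_one,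
        ArithmeticFunction.pmul_apply, rv_one, rv_one]
      norm_num
    have hgβ : Pf g β = Pf (rv χ₁) β * Pf (rv χ₂) β * Pf (rv (pc χ₁ χ₂)) β := by
      rw [hg, hSGC _ _ _ B hbd hsum β (by linarith), rv_pc χ₁ χ₂ h12 h22]
    have hg1' : Pf g 1 = Pf (rv χ₁) 1 * Pf (rv χ₂) 1 * Pf (rv (pc χ₁ χ₂)) 1 := by
      rw [hg, hSGC _ _ _ B hbd hsum 1 (by norm_num), rv_pc χ₁ χ₂ h12 h22]
    have hgβ0 : 0 ≤ Pf g β := by
      rw [hgβ]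
      exact hnn q₂ (q₂ * q₁) χ₂ (pc χ₁ χ₂) hq₂ hq₃ h21 h22 hne hsq
    have hlow := hB g (C' * B ^ 3) hAA hgs hg1 (hSGD q₁ q₂ χ₁ χ₂ h12 h22) hgβ0
    -- the exponents
    have hexp : (C' * B ^ 3) ^ (-(ε / 6)) ≤ (C' * B ^ 3) ^ (-(8 * (1 - β))) := by
      refine Real.rpow_le_rpow_of_exponent_le hAA ?_
      rw [hβ₀] at hββ
      linarith
    have hsplit : (C' * B ^ 3) ^ (-(ε / 6)) =
        C' ^ (-(ε / 6)) * ((q₁ : ℝ) ^ (-(ε / 2)) * (q₂ : ℝ) ^ (-(ε / 2))) := by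
      rw [Real.mul_rpow (by positivity) (by positivity)]
      congr 1
      rw [← Real.rpow_natCast B 3, ← Real.rpow_mul (by positivity), hBd,
        Real.mul_rpow (by positivity) (by positivity)]
      rw [mul_comm]
      congr 2 <;> · push_cast; ring
    have hP2 : 0 < Pf (rv χ₂) 1 := f3 1 le_rfl
    have hP1 : 0 < Pf (rv χ₁) 1 := e3 1 le_rfl
    have hP3 : 0 < Pf (rv (pc χ₁ χ₂)) 1 := g3 1 le_rfl
    have hU1 : Pf (rv χ₁) 1 ≤ CE * Real.log (q₁ + 2) := e4 1 le_rfl (by norm_num)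
    have hU3 : Pf (rv (pc χ₁ χ₂)) 1 ≤
        CE * ((3 * q₁) ^ (ε / 2) * (2 / ε) * (q₂ : ℝ) ^ (ε / 2)) := by
      have h1 : Pf (rv (pc χ₁ χ₂)) 1 ≤ CE * Real.log (((q₂ * q₁ : ℕ) : ℝ) + 2) :=
        g4 1 le_rfl (by norm_num)
      refine h1.trans (mul_le_mul_of_nonneg_left ?_ hCE.le)
      have h2 : Real.log (((q₂ * q₁ : ℕ) : ℝ) + 2) ≤
          (((q₂ * q₁ : ℕ) : ℝ) + 2) ^ (ε / 2) / (ε / 2) :=
        Real.log_le_rpow_div (by positivity) (by positivity)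
      refine h2.trans ?_
      have h3 : ((q₂ * q₁ : ℕ) : ℝ) + 2 ≤ 3 * q₁ * q₂ := by
        push_cast
        nlinarith
      calc (((q₂ * q₁ : ℕ) : ℝ) + 2) ^ (ε / 2) / (ε / 2) ≤
          (3 * q₁ * q₂ : ℝ) ^ (ε / 2) / (ε / 2) := by gcongr
        _ = _ := by
          rw [Real.mul_rpow (by positivity) (by positivity)]
          field_simp
    have hprod : Pf (rv χ₁) 1 * Pf (rv (pc χ₁ χ₂)) 1 ≤ Kc * (q₂ : ℝ) ^ (ε / 2) := by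
      calc Pf (rv χ₁) 1 * Pf (rv (pc χ₁ χ₂)) 1 ≤ (CE * Real.log (q₁ + 2)) *
            (CE * ((3 * q₁) ^ (ε / 2) * (2 / ε) * (q₂ : ℝ) ^ (ε / 2))) :=
            mul_le_mul hU1 hU3 hP3.le (by positivity)
        _ = _ := by
            rw [hKc]
            ring
    have hfin : cB * (C' ^ (-(ε / 6)) * ((q₁ : ℝ) ^ (-(ε / 2)) * (q₂ : ℝ) ^ (-(ε / 2)))) ≤
        Pf (rv χ₂) 1 * (Kc * (q₂ : ℝ) ^ (ε / 2)) := by
      calc cB * (C' ^ (-(ε / 6)) * ((q₁ : ℝ) ^ (-(ε / 2)) * (q₂ : ℝ) ^ (-(ε / 2)))) ≤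
          cB * (C' * B ^ 3) ^ (-(8 * (1 - β))) := by
            rw [← hsplit]
            exact mul_le_mul_of_nonneg_left hexp hcB.le
        _ ≤ Pf g 1 := hlow
        _ = Pf (rv χ₂) 1 * (Pf (rv χ₁) 1 * Pf (rv (pc χ₁ χ₂)) 1) := by
            rw [hg1']
            ring
        _ ≤ _ := mul_le_mul_of_nonneg_left hprod hP2.le
    have hmin : min cs cm * (q₂ : ℝ) ^ (-ε) ≤ cm * (q₂ : ℝ) ^ (-ε) :=
      mul_le_mul_of_nonneg_right (min_le_right _ _) (by positivity)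
    refine hmin.trans ?_
    have hq₂ε : (q₂ : ℝ) ^ (-ε) = (q₂ : ℝ) ^ (-(ε / 2)) / (q₂ : ℝ) ^ (ε / 2) := by
      rw [← Real.rpow_sub (by positivity)]
      congr 1
      ring
    rw [hcm, hq₂ε, div_mul_div_comm, div_le_iff₀ (by positivity)]
    calc cB * C' ^ (-(ε / 6)) * (q₁ : ℝ) ^ (-(ε / 2)) * (q₂ : ℝ) ^ (-(ε / 2)) =
        cB * (C' ^ (-(ε / 6)) * ((q₁ : ℝ) ^ (-(ε / 2)) * (q₂ : ℝ) ^ (-(ε / 2)))) := by ring
      _ ≤ _ := hfin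

end Pool.Agent.H64.VT.SGP
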