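import Pool.Agent.H46.VT.Red
import Pool.Agent.H46.VT.Tools

/-!
Module LF (MP_36d07e_lc, board vt_modules of helper46): limit facts.
-/

set_option autoImplicit false

namespace Pool.Agent.H64.VT

open _root_.VT
open Nat.Partrec (Code)
open Pool.Agent.H46.VT (wst_mono)

/-- a monotone predicate is eventually equal to its limit -/
theorem ev_lim (P : ℕ → Prop) (hP : ∀ s t, s ≤ t → P s → P t) :
    ∃ t0, ∀ t, t0 ≤ t → (P t ↔ ∃ s, P s) := by
  by_cases h : ∃ s, P s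
  · obtain ⟨s, hs⟩ := h
    exact ⟨s, fun t ht => ⟨fun h => ⟨t, h⟩, fun _ => hP s t ht hs⟩⟩
  · exact ⟨0, fun t _ => ⟨fun h' => ⟨t, h'⟩, fun h' => absurd h' h⟩⟩

theorem ev_bdd (P : ℕ → ℕ → Prop) (h : ∀ y, ∃ t0, ∀ t, t0 ≤ t → P y t) (b : ℕ) :
    ∃ t0, ∀ t, t0 ≤ t → ∀ y ≤ b, P y t := by
  choose f hf using h
  refine ⟨(Finset.range (b + 1)).sup f, fun t ht y hy => hf y t ?_⟩
  exact (Finset.le_sup (f := f) (Finset.mem_range.2 (Nat.lt_succ_of_le hy))).trans ht

theorem pf_LF (hRA : TARGET_RA) : TARGET_LF := by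
  classical
  intro ph hrun
  obtain ⟨_, hU, hC, hA, _, _, _, _, _, _, _, _, hD⟩ := hRA ph hrun
  refine ⟨?_, ?_, ?_, ?_⟩
  · intro k hk x s0
    obtain ⟨s, t, _, hbt, hy⟩ := hk (max x s0)
    exact ⟨t, lt_of_le_of_lt (le_max_right x s0) hbt, hy x (le_max_left x s0)⟩
  · intro k
    unfold tv Inf
    split_ifs with h
    · constructor
      · intro h0
        simp at h0
      · intro h1
        obtain ⟨b, hb⟩ := h
        obtain ⟨s, hs⟩ := h1 b
        exact absurd hs (hb s)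
    · push Not at h
      exact ⟨fun _ => h, fun _ => rfl⟩
  · intro k b htv
    unfold tv at htv
    split_ifs at htv with h
    · have hb : Nat.find h = b := Nat.succ_injective htv
      subst hb
      refine ⟨Nat.find_spec h, fun b' hb' => ?_⟩
      have := Nat.find_min h hb'
      push Not at this
      exact this
  · intro k h1 h2 h3 h4 b
    have key : ∀ y, ∃ t0, ∀ t, t0 ≤ t → phi ph k y t := by
      intro y
      obtain ⟨a1, e1⟩ := ev_lim (fun t => Wst (rs k) t y) (fun s t h hs => wst_mono h hs)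
      obtain ⟨a2, e2⟩ := ev_lim (fun t => Wst (rs' k) t y) (fun s t h hs => wst_mono h hs)
      obtain ⟨a3, e3⟩ := ev_lim (fun t => Wst (rb k) t y) (fun s t h hs => wst_mono h hs)
      obtain ⟨a4, e4⟩ := ev_lim (fun t => Wst (rt k) t y) (fun s t h hs => wst_mono h hs)
      obtain ⟨a5, e5⟩ := ev_lim (fun t => Uin ph (rl k) t y) (fun s t h hs => hU _ s t y h hs)
      obtain ⟨a6, e6⟩ := ev_lim (fun t => Cin ph (rl k) t y) (fun s t h hs => hC _ s t y h hs)
      obtain ⟨a7, e7⟩ := ev_lim (fun t => Ain ph (rl k) t y) (fun s t h hs => hA _ s t y h hs)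
      obtain ⟨a8, e8⟩ := ev_lim (fun t => Dst ph (rl k) (rb k) t y)
        (fun s t h hs => hD _ _ s t y h hs)
      refine ⟨a1 + a2 + a3 + a4 + a5 + a6 + a7 + a8, fun t ht => ?_⟩
      have f1 : Wst (rs k) t y ↔ y ∈ W (rs k) := e1 t (by omega)
      have f2 : Wst (rs' k) t y ↔ y ∈ W (rs' k) := e2 t (by omega)
      have f3 : Wst (rb k) t y ↔ y ∈ W (rb k) := e3 t (by omega)
      have f4 : Wst (rt k) t y ↔ y ∈ W (rt k) := e4 t (by omega)
      have f5 : Uin ph (rl k) t y ↔ y ∈ UU ph (rl k) := e5 t (by omega)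
      have f6 : Cin ph (rl k) t y ↔ y ∈ CC ph (rl k) := e6 t (by omega)
      have f7 : Ain ph (rl k) t y ↔ y ∈ AA ph (rl k) := e7 t (by omega)
      have f8 : Dst ph (rl k) (rb k) t y ↔ y ∈ DD ph (rl k) (rb k) := e8 t (by omega)
      unfold phi
      rw [f1, f2, f3, f4, f5, f6, f7, f8]
      have g1 : (y ∈ W (rs k) ∨ y ∈ W (rs' k)) ↔ y ∈ CC ph (rl k) := by
        rw [← h1, Set.mem_union]
      have g2 : ¬ (y ∈ W (rs k) ∧ y ∈ W (rs' k)) := by
        intro h
        have : y ∈ W (rs k) ∩ W (rs' k) := h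
        rw [h2] at this
        exact this
      have g3 : (y ∈ W (rb k) ∧ y ∈ W (rs k) ∧ y ∉ AA ph (rl k)) ↔
          (y ∈ DD ph (rl k) (rb k) ∧ y ∈ W (rs k) ∧ y ∉ AA ph (rl k)) := by
        have := Set.ext_iff.1 h3 y
        simpa only [Set.mem_inter_iff, Set.mem_sdiff] using this
      have g4 : y ∈ UU ph (rl k) → y ∉ CC ph (rl k) → y ∈ W (rt k) := fun h h' => h4 ⟨h, h'⟩
      refine ⟨fun hc => ?_, g1.1, fun hs ha => ?_, g4⟩
      · rcases g1.2 hc with h | h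
        · exact ⟨fun _ h' => g2 ⟨h, h'⟩, fun _ => h⟩
        · exact ⟨fun h' => absurd ⟨h', h⟩ g2, fun h' => absurd h h'⟩
      · exact ⟨fun h => (g3.1 ⟨h, hs, ha⟩).1, fun h => (g3.2 ⟨h, hs, ha⟩).1⟩
    obtain ⟨t0, ht0⟩ := ev_bdd (fun y t => phi ph k y t) key b
    exact ⟨t0 + b + 1, t0 + b + 1, le_rfl, by omega, fun y hy => ht0 _ (by omega) y hy⟩

end Pool.Agent.H64.VT
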