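import Pool.Agent.H64.VT.RH

/-!
Module RC (MP_36d07e_lc, board vt_modules of helper46): the construction is computable.
-/

set_option autoImplicit false

namespace Pool.Agent.H64.VT

open _root_.VT
open Nat.Partrec (Code)
open Nat.Partrec.Code Encodable Denumerable
open Pool.Agent.H46.VT

/-! ### The next state depends only on the past -/

section congr

variable {F G : ℕ → ℕ → ℕ × ℕ}

theorem Uin_congr {l s x : ℕ} (h : F s x = G s x) : Uin F l s x ↔ Uin G l s x := by
  unfold Uin; rw [h]

theorem Cin_congr {l s x : ℕ} (h : F s x = G s x) : Cin F l s x ↔ Cin G l s x := by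
  unfold Cin; rw [h]

theorem Ain_congr {l s x : ℕ} (h : F s x = G s x) : Ain F l s x ↔ Ain G l s x := by
  unfold Ain; rw [h]

theorem AnnAt_congr {s x k : ℕ} (h : F s x = G s x) : AnnAt F s x k ↔ AnnAt G s x k := by
  unfold AnnAt act; rw [h]

theorem Dst_congr {l : ℕ} {b : Code} {s x : ℕ} (h : ∀ t ≤ s, ∀ y, F t y = G t y) :
    Dst F l b s x ↔ Dst G l b s x := by
  unfold Dst
  refine exists_congr fun t => and_congr_right fun ht => exists_congr fun k =>
    and_congr_right fun _ => and_congr_left fun _ => AnnAt_congr (h t ht.le x)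

theorem phi_congr {k y t : ℕ} (h : ∀ s ≤ t, ∀ x, F s x = G s x) : phi F k y t ↔ phi G k y t := by
  have h1 := h t le_rfl y
  unfold phi
  rw [Cin_congr h1, Ain_congr h1, Uin_congr h1, Dst_congr h]

theorem Big_congr {k s b : ℕ} (h : ∀ t ≤ s, ∀ y, F t y = G t y) : Big F k s b ↔ Big G k s b := by
  unfold Big
  refine exists_congr fun t => and_congr_right fun ht => and_congr_right fun _ =>
    forall_congr' fun y => forall_congr' fun _ => phi_congr fun s hs => h s (hs.trans ht)

theorem Guard_congr {s x : ℕ} (h : ∀ t ≤ s, ∀ y, F t y = G t y) : Guard F s x ↔ Guard G s x := by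
  have h1 := h s le_rfl x
  unfold Guard Eqm
  rw [h1]
  refine and_congr_right fun _ => forall_congr' fun k => forall_congr' fun _ =>
    forall_congr' fun _ => ?_
  rw [Big_congr h, Big_congr (b := gX x k - 1) h, Big_congr (b := gX x k - 1 - 1) h]

theorem MvC_congr {s x : ℕ} (h : ∀ t ≤ s, ∀ y, F t y = G t y) : MvC F s x ↔ MvC G s x := by
  have h1 := h s le_rfl x
  unfold MvC
  rw [h1]
  refine or_congr_right (or_congr_right (or_congr_right (or_congr_right ?_)))
  refine exists_congr fun k => and_congr_right fun _ => and_congr_right fun _ => ?_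
  rw [AnnAt_congr h1]

theorem nxt_congr {s x : ℕ} (h : ∀ t ≤ s, ∀ y, F t y = G t y) : nxt F s x = nxt G s x := by
  classical
  have h1 := h s le_rfl x
  unfold nxt
  rw [h1]
  by_cases hc : Guard G s x ∧ MvC G s x
  · rw [if_pos hc, if_pos ⟨(Guard_congr h).2 hc.1, (MvC_congr h).2 hc.2⟩]
  · rw [if_neg hc, if_neg fun h' => hc ⟨(Guard_congr h).1 h'.1, (MvC_congr h).1 h'.2⟩]

end congr

theorem presSt_lt : ∀ (l : List Code) {s x : ℕ}, presSt l s x → x < s
  | [], _, _, h => absurd h (by simp [presSt])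
  | [c], _, _, h => wst_lt (c := c) (by simpa [presSt] using h)
  | c :: d :: l, s, x, h => by
    unfold presSt at h
    rcases h with h | h
    · exact wst_lt h.1
    · exact presSt_lt l h

/-- numbers above the stage do not move -/
theorem nxt_init {ph : ℕ → ℕ → ℕ × ℕ} {s x : ℕ} (h : ph s x = (0, LX x + 4)) (hx : s ≤ x) :
    nxt ph s x = (0, LX x + 4) := by
  classical
  have hm : ¬ MvC ph s x := by
    unfold MvC
    rw [h]
    have hL : LX x = mX x + eX x := rfl
    rintro (⟨_, h2, _⟩ | ⟨h1, _⟩ | ⟨h1, _⟩ | ⟨h1, _⟩ | ⟨k, hk, h1, _⟩)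
    · exact absurd (presSt_lt _ h2) (by omega)
    · simp at h1
    · simp only at h1; omega
    · simp only at h1; omega
    · simp only [ptr] at h1
      split_ifs at h1 <;> omega
  unfold nxt
  rw [if_neg fun h' => hm h'.2, h]

/-! ### The history -/

/-- The run read off from a history. -/
def FF (h : List (List (ℕ × ℕ))) (t x : ℕ) : ℕ × ℕ := (h.getD t []).getD x (0, LX x + 4)

/-- The next row of the history. -/
noncomputable def row (h : List (List (ℕ × ℕ))) (s : ℕ) : List (ℕ × ℕ) :=
  (List.range s).map fun x => nxt (FF h) (s - 1) x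

/-- The history. -/
noncomputable def hist : ℕ → List (List (ℕ × ℕ))
  | 0 => []
  | s + 1 => hist s ++ [row (hist s) s]

theorem hist_length (s : ℕ) : (hist s).length = s := by
  induction s with
  | zero => rfl
  | succ s ih => simp [hist, ih]

theorem hist_getD {s t : ℕ} (h : t < s) : (hist s).getD t [] = row (hist t) t := by
  induction s with
  | zero => omega
  | succ s ih =>
    rw [hist]
    rcases Nat.lt_succ_iff_lt_or_eq.1 h with h' | h'
    · rw [List.getD_append _ _ _ _ (by rw [hist_length]; exact h')]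
      exact ih h'
    · subst h'
      rw [List.getD_append_right _ _ _ _ (by rw [hist_length]), hist_length, Nat.sub_self]
      rfl

/-- The run. -/
noncomputable def run (s x : ℕ) : ℕ × ℕ := FF (hist (s + 1)) s x

theorem FF_hist {s t : ℕ} (h : t < s) (x : ℕ) : FF (hist s) t x = run t x := by
  unfold run FF
  rw [hist_getD h, hist_getD (Nat.lt_succ_self t)]

theorem run_eq (s x : ℕ) : run s x = (row (hist s) s).getD x (0, LX x + 4) := by
  unfold run FF
  rw [hist_getD (Nat.lt_succ_self s)]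

theorem run_ge {s x : ℕ} (h : s ≤ x) : run s x = (0, LX x + 4) := by
  rw [run_eq]
  exact List.getD_eq_default _ _ (by simpa [row] using h)

theorem run_run : Run run := by
  refine ⟨fun x => run_ge (Nat.zero_le x), fun s x => ?_⟩
  rcases Nat.lt_or_ge x (s + 1) with h | h
  · rw [run_eq, List.getD_eq_getElem _ _ (by simpa [row] using h)]
    simp only [row, List.getElem_map, List.getElem_range, Nat.add_sub_cancel]
    exact nxt_congr fun t ht y => FF_hist (Nat.lt_succ_of_le ht) y
  · rw [run_ge h, nxt_init (run_ge (by omega)) (by omega)]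

theorem co_FF : Computable (fun q : List (List (ℕ × ℕ)) × ℕ × ℕ => FF q.1 q.2.1 q.2.2) := by
  have vh : Computable (fun q : List (List (ℕ × ℕ)) × ℕ × ℕ => q.1) := Computable.fst
  have vt : Computable (fun q : List (List (ℕ × ℕ)) × ℕ × ℕ => q.2.1) :=
    Computable.fst.comp Computable.snd
  have vx : Computable (fun q : List (List (ℕ × ℕ)) × ℕ × ℕ => q.2.2) :=
    Computable.snd.comp Computable.snd
  have h1 : Computable (fun q : List (List (ℕ × ℕ)) × ℕ × ℕ => (q.1.getD q.2.1 [])[q.2.2]?) :=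
    Computable.list_getElem?.comp (co_getD [] vh vt) vx
  have h2 : Computable (fun q : List (List (ℕ × ℕ)) × ℕ × ℕ =>
      ((0, LX q.2.2 + 4) : ℕ × ℕ)) :=
    (co_nat_const 0).pair (co_add (co_LX vx) (co_nat_const 4))
  refine (Computable.option_getD h1 h2).of_eq fun q => ?_
  simp only [FF, List.getD_eq_getElem?_getD]

/-- The row for an arbitrary step function. -/
def rowG (G : List (List (ℕ × ℕ)) → ℕ → ℕ → ℕ × ℕ) (h : List (List (ℕ × ℕ))) (s : ℕ) :
    List (ℕ × ℕ) := (List.range s).map fun x => G h (s - 1) x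

theorem co_row (G : List (List (ℕ × ℕ)) → ℕ → ℕ → ℕ × ℕ)
    (hG : Computable (fun q : List (List (ℕ × ℕ)) × ℕ × ℕ => G q.1 q.2.1 q.2.2)) :
    Computable (fun q : List (List (ℕ × ℕ)) × ℕ => rowG G q.1 q.2) := by
  have vq : Computable (fun q : (List (List (ℕ × ℕ)) × ℕ) × ℕ => q.1) := Computable.fst
  have w1 : Computable (fun q : (List (List (ℕ × ℕ)) × ℕ) × ℕ => q.1.1) :=
    Computable.fst.comp vq
  have w2 : Computable (fun q : (List (List (ℕ × ℕ)) × ℕ) × ℕ => q.1.2) :=
    Computable.snd.comp vq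
  have w3 : Computable (fun q : (List (List (ℕ × ℕ)) × ℕ) × ℕ => q.1.2 - 1) :=
    co_sub w2 (co_nat_const 1)
  have w4 : Computable (fun q : (List (List (ℕ × ℕ)) × ℕ) × ℕ => q.2) := Computable.snd
  have w6 : Computable (fun q : (List (List (ℕ × ℕ)) × ℕ) × ℕ =>
      G q.1.1 (q.1.2 - 1) q.2) := co_F (F := G) hG w1 w3 w4
  have w7 : Computable (fun q : List (List (ℕ × ℕ)) × ℕ => q.2) := Computable.snd
  exact co_range_map (α := List (List (ℕ × ℕ)) × ℕ)
    (f := fun q x => G q.1 (q.2 - 1) x) (n := fun q => q.2) w6 w7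

/-- The history for an arbitrary row function. -/
def histG (R : List (List (ℕ × ℕ)) → ℕ → List (ℕ × ℕ)) : ℕ → List (List (ℕ × ℕ))
  | 0 => []
  | s + 1 => histG R s ++ [R (histG R s) s]

theorem co_hist (R : List (List (ℕ × ℕ)) → ℕ → List (ℕ × ℕ))
    (hR : Computable (fun q : List (List (ℕ × ℕ)) × ℕ => R q.1 q.2)) : Computable (histG R) := by
  have e1 : Computable (fun q : ℕ × (ℕ × List (List (ℕ × ℕ))) => q.2.2) :=
    Computable.snd.comp Computable.snd
  have e2 : Computable (fun q : ℕ × (ℕ × List (List (ℕ × ℕ))) => q.2.1) :=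
    Computable.fst.comp Computable.snd
  have e3 : Computable (fun q : ℕ × (ℕ × List (List (ℕ × ℕ))) => R q.2.2 q.2.1) :=
    (hR.comp (e1.pair e2)).of_eq fun _ => rfl
  have e5 : Computable (fun q : ℕ × (ℕ × List (List (ℕ × ℕ))) =>
      q.2.2 ++ [R q.2.2 q.2.1]) := Computable.list_concat.comp e1 e3
  have e5' : Computable₂ (fun (_ : ℕ) (q : ℕ × List (List (ℕ × ℕ))) => q.2 ++ [R q.2 q.1]) := e5
  have e6 : Computable (fun s : ℕ => (Nat.rec ([] : List (List (ℕ × ℕ)))
      (fun y IH => IH ++ [R IH y]) s : List (List (ℕ × ℕ)))) :=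
    Computable.nat_rec (α := ℕ) (f := fun s => s) (g := fun _ => ([] : List (List (ℕ × ℕ))))
      (h := fun (_ : ℕ) (q : ℕ × List (List (ℕ × ℕ))) => q.2 ++ [R q.2 q.1])
      Computable.id (Computable.const _) e5'
  refine e6.of_eq fun s => ?_
  induction s with
  | zero => rfl
  | succ s ih => rw [histG, ← ih]

theorem co_run (H : ℕ → List (List (ℕ × ℕ))) (Φ : List (List (ℕ × ℕ)) → ℕ → ℕ → ℕ × ℕ)
    (hH : Computable H)
    (hΦ : Computable (fun q : List (List (ℕ × ℕ)) × ℕ × ℕ => Φ q.1 q.2.1 q.2.2)) :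
    Computable (fun q : ℕ × ℕ => Φ (H (q.1 + 1)) q.1 q.2) := by
  have v1 : Computable (fun q : ℕ × ℕ => q.1) := Computable.fst
  have v2 : Computable (fun q : ℕ × ℕ => q.2) := Computable.snd
  have v3 : Computable (fun q : ℕ × ℕ => H (q.1 + 1)) := hH.comp (co_add v1 (co_nat_const 1))
  exact co_F (F := Φ) hΦ v3 v1 v2

theorem hist_eq (s : ℕ) : hist s = histG (rowG fun h s x => nxt (FF h) s x) s := by
  induction s with
  | zero => rfl
  | succ s ih => rw [hist, histG, ih]; rfl

theorem pf_RC (hRH : TARGET_RH) : TARGET_RC := by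
  obtain ⟨_, _, _, hnxt⟩ := hRH (List (List (ℕ × ℕ))) _ FF co_FF
  have h1 := co_row (fun h s x => nxt (FF h) s x) hnxt
  have h2 := co_hist (rowG fun h s x => nxt (FF h) s x) h1
  have h3 : Computable hist := h2.of_eq fun s => (hist_eq s).symm
  refine ⟨run, ?_, run_run⟩
  have h4 := co_run hist FF h3 co_FF
  exact h4

end Pool.Agent.H64.VT
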