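import Pool.Agent.H46.VT.Red
import Pool.Agent.H46.VT.Tools

/-!
Module RH (MP_36d07e_lc, board vt_modules of helper46): computability of the move conditions.
-/

set_option autoImplicit false

namespace Pool.Agent.H64.VT

open _root_.VT
open Nat.Partrec (Code)
open Nat.Partrec.Code Encodable Denumerable
open Pool.Agent.H46.VT

variable {β : Type} [Primcodable β]

theorem co_nat_const (n : ℕ) : Computable (fun _ : β => n) := Computable.const n

theorem co_mX {f : β → ℕ} (hf : Computable f) : Computable (fun b => mX (f b)) := co_unpair1 hf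

theorem co_eX {f : β → ℕ} (hf : Computable f) : Computable (fun b => eX (f b)) :=
  co_unpair1 (co_unpair2 hf)

theorem co_wX {f : β → ℕ} (hf : Computable f) : Computable (fun b => wX (f b)) :=
  (Computable.ofNat (List ℕ)).comp (co_unpair2 (co_unpair2 hf))

theorem co_LX {f : β → ℕ} (hf : Computable f) : Computable (fun b => LX (f b)) :=
  co_add (co_mX hf) (co_eX hf)

theorem co_lX {f : β → ℕ} (hf : Computable f) : Computable (fun b => lX (f b)) :=
  Primrec.list_take.to_comp.comp (co_mX hf) ((Computable.ofNat (List Code)).comp (co_eX hf))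

theorem co_gX {f g : β → ℕ} (hf : Computable f) (hg : Computable g) :
    Computable (fun b => gX (f b) (g b)) := co_getD 0 (co_wX hf) hg

theorem co_rl {f : β → ℕ} (hf : Computable f) : Computable (fun b => rl (f b)) :=
  co_unpair1 (co_unpair1 hf)

theorem co_rb {f : β → ℕ} (hf : Computable f) : Computable (fun b => rb (f b)) :=
  co_ofNatCode (co_unpair1 (co_unpair2 (co_unpair1 hf)))

theorem co_rs {f : β → ℕ} (hf : Computable f) : Computable (fun b => rs (f b)) :=
  co_ofNatCode (co_unpair1 (co_unpair2 (co_unpair2 (co_unpair1 hf))))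

theorem co_rs' {f : β → ℕ} (hf : Computable f) : Computable (fun b => rs' (f b)) :=
  co_ofNatCode (co_unpair1 (co_unpair2 (co_unpair2 (co_unpair2 (co_unpair1 hf)))))

theorem co_rt {f : β → ℕ} (hf : Computable f) : Computable (fun b => rt (f b)) :=
  co_ofNatCode (co_unpair2 (co_unpair2 (co_unpair2 (co_unpair2 (co_unpair1 hf)))))

theorem co_cur {x i k : β → ℕ} (hx : Computable x) (hi : Computable i) (hk : Computable k) :
    Computable (fun b => cur (x b) (i b) (k b)) := by
  unfold cur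
  exact co_ite (cp_lt hk (co_mX hx)) (co_nat_const 0)
    (co_add (co_pair (co_mX hx) hi) (co_nat_const 1)) _

theorem co_ptr {x k : β → ℕ} (hx : Computable x) (hk : Computable k) :
    Computable (fun b => ptr (x b) (k b)) := by
  unfold ptr
  exact co_ite (cp_lt hk (co_mX hx)) (co_add hk (co_nat_const 1)) (co_add hk (co_nat_const 3)) _

theorem co_rr {x c : β → ℕ} (hx : Computable x) (hc : Computable c) :
    Computable (fun b => rr (x b) (c b)) := by
  unfold rr
  exact co_ite (cp_le hc (co_mX hx)) hc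
    (co_ite (cp_le hc (co_add (co_mX hx) (co_nat_const 2))) (co_mX hx)
      (co_sub hc (co_nat_const 2)) _) _

theorem co_length {γ : Type} [Primcodable γ] {f : β → List γ} (hf : Computable f) :
    Computable (fun b => (f b).length) := Computable.list_length.comp hf

section

variable {α : Type} [Primcodable α] {F : α → ℕ → ℕ → ℕ × ℕ}

/-- the value of the run at computable arguments -/
theorem co_F (hF : Computable (fun q : α × ℕ × ℕ => F q.1 q.2.1 q.2.2)) {a : β → α} {s x : β → ℕ}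
    (ha : Computable a) (hs : Computable s) (hx : Computable x) :
    Computable (fun b => F (a b) (s b) (x b)) := hF.comp (ha.pair (hs.pair hx))

theorem cp_Big (hB : ComputablePred (fun q : α × ℕ × ℕ × ℕ => Big (F q.1) q.2.1 q.2.2.1 q.2.2.2))
    {a : β → α} {k s c : β → ℕ} (ha : Computable a) (hk : Computable k) (hs : Computable s)
    (hc : Computable c) : ComputablePred (fun b => Big (F (a b)) (k b) (s b) (c b)) :=
  cp_comp (p := fun q : α × ℕ × ℕ × ℕ => Big (F q.1) q.2.1 q.2.2.1 q.2.2.2)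
    (f := fun b => (a b, k b, s b, c b)) hB (ha.pair (hk.pair (hs.pair hc)))

theorem cp_Ann (hA : ComputablePred (fun q : α × ℕ × ℕ × ℕ => AnnAt (F q.1) q.2.1 q.2.2.1 q.2.2.2))
    {a : β → α} {s x k : β → ℕ} (ha : Computable a) (hs : Computable s) (hx : Computable x)
    (hk : Computable k) : ComputablePred (fun b => AnnAt (F (a b)) (s b) (x b) (k b)) :=
  cp_comp (p := fun q : α × ℕ × ℕ × ℕ => AnnAt (F q.1) q.2.1 q.2.2.1 q.2.2.2)
    (f := fun b => (a b, s b, x b, k b)) hA (ha.pair (hs.pair (hx.pair hk)))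

theorem cp_presSt (hP : ComputablePred (fun q : List Code × ℕ × ℕ => presSt q.1 q.2.1 q.2.2))
    {l : β → List Code} {s x : β → ℕ} (hl : Computable l) (hs : Computable s)
    (hx : Computable x) : ComputablePred (fun b => presSt (l b) (s b) (x b)) :=
  cp_comp (p := fun q : List Code × ℕ × ℕ => presSt q.1 q.2.1 q.2.2)
    (f := fun b => (l b, s b, x b)) hP (hl.pair (hs.pair hx))

end

theorem pf_RH (hRG : TARGET_RG) (hPS : TARGET_PS) : TARGET_RH := by
  classical
  intro α _ F hF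
  obtain ⟨_, _, _, hAnn, _, hBig⟩ := hRG α _ F hF
  obtain ⟨_, _, hPr, _⟩ := hPS
  -- base variables
  have va : Computable (fun q : α × ℕ × ℕ => q.1) := Computable.fst
  have vs : Computable (fun q : α × ℕ × ℕ => q.2.1) := Computable.fst.comp Computable.snd
  have vx : Computable (fun q : α × ℕ × ℕ => q.2.2) := Computable.snd.comp Computable.snd
  -- with one bounded quantifier
  have wq : Computable (fun q : (α × ℕ × ℕ) × ℕ => q.1) := Computable.fst
  have wa : Computable (fun q : (α × ℕ × ℕ) × ℕ => q.1.1) := va.comp wq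
  have ws : Computable (fun q : (α × ℕ × ℕ) × ℕ => q.1.2.1) := vs.comp wq
  have wx : Computable (fun q : (α × ℕ × ℕ) × ℕ => q.1.2.2) := vx.comp wq
  have wk : Computable (fun q : (α × ℕ × ℕ) × ℕ => q.2) := Computable.snd
  have vF : Computable (fun q : α × ℕ × ℕ => F q.1 q.2.1 q.2.2) := hF
  have vF1 : Computable (fun q : α × ℕ × ℕ => (F q.1 q.2.1 q.2.2).1) := Computable.fst.comp vF
  have vF2 : Computable (fun q : α × ℕ × ℕ => (F q.1 q.2.1 q.2.2).2) := Computable.snd.comp vF
  have wF1 : Computable (fun q : (α × ℕ × ℕ) × ℕ => (F q.1.1 q.1.2.1 q.1.2.2).1) := vF1.comp wq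
  have wF2 : Computable (fun q : (α × ℕ × ℕ) × ℕ => (F q.1.1 q.1.2.1 q.1.2.2).2) := vF2.comp wq
  have hEqm : ComputablePred (fun q : (α × ℕ × ℕ) × ℕ =>
      Eqm (F q.1.1) q.2 q.1.2.1 (gX q.1.2.2 q.2 - 1)) := by
    unfold Eqm
    refine cp_and (cp_not (cp_Big hBig wa wk ws (co_sub (co_gX wx wk) (co_nat_const 1)))) ?_
    exact cp_or (cp_eq (co_sub (co_gX wx wk) (co_nat_const 1)) (co_nat_const 0))
      (cp_Big hBig wa wk ws (co_sub (co_sub (co_gX wx wk) (co_nat_const 1)) (co_nat_const 1)))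
  have hGuard : ComputablePred (fun q : α × ℕ × ℕ => Guard (F q.1) q.2.1 q.2.2) := by
    unfold Guard
    refine cp_and (cp_eq (co_length (co_wX vx)) (co_LX vx)) ?_
    refine cp_forall_lt (α := α × ℕ × ℕ) (n := fun q => LX q.2.2)
      (p := fun q k => k < rr q.2.2 (F q.1 q.2.1 q.2.2).2 →
        (gX q.2.2 k = 0 ∧ Big (F q.1) k q.2.1 q.2.2) ∨
        (gX q.2.2 k ≠ 0 ∧ Eqm (F q.1) k q.2.1 (gX q.2.2 k - 1))) ?_ (co_LX vx)
    refine cp_imp (cp_lt wk (co_rr wx wF2)) (cp_or (cp_and ?_ ?_) (cp_and ?_ ?_))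
    · exact cp_eq (co_gX wx wk) (co_nat_const 0)
    · exact cp_Big hBig wa wk ws wx
    · exact cp_not (cp_eq (co_gX wx wk) (co_nat_const 0))
    · exact hEqm
  have hMvC : ComputablePred (fun q : α × ℕ × ℕ => MvC (F q.1) q.2.1 q.2.2) := by
    unfold MvC
    refine cp_or ?_ (cp_or ?_ (cp_or ?_ (cp_or ?_ ?_)))
    · refine cp_and (cp_eq vF2 (co_add (co_LX vx) (co_nat_const 4)))
        (cp_and (cp_presSt hPr (co_lX vx) vs vx) ?_)
      refine cp_forall_lt (α := α × ℕ × ℕ) (n := fun q => LX q.2.2)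
        (p := fun q k => mX q.2.2 ≤ k → rl k = cur q.2.2 (F q.1 q.2.1 q.2.2).1 k →
          gX q.2.2 k = 0 → Wst (rt k) q.2.1 q.2.2) ?_ (co_LX vx)
      exact cp_imp (cp_le (co_mX wx) wk) (cp_imp (cp_eq (co_rl wk) (co_cur wx wF1 wk))
        (cp_imp (cp_eq (co_gX wx wk) (co_nat_const 0)) (cp_wst (co_rt wk) ws wx)))
    · refine cp_and (cp_eq vF2 (co_add (co_LX vx) (co_nat_const 3))) ?_
      refine cp_forall_lt (α := α × ℕ × ℕ) (n := fun q => LX q.2.2)
        (p := fun q k => mX q.2.2 ≤ k → rl k = cur q.2.2 (F q.1 q.2.1 q.2.2).1 k →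
          gX q.2.2 k = 0 → Wst (rs k) q.2.1 q.2.2 ∨ Wst (rs' k) q.2.1 q.2.2) ?_ (co_LX vx)
      exact cp_imp (cp_le (co_mX wx) wk) (cp_imp (cp_eq (co_rl wk) (co_cur wx wF1 wk))
        (cp_imp (cp_eq (co_gX wx wk) (co_nat_const 0))
          (cp_or (cp_wst (co_rs wk) ws wx) (cp_wst (co_rs' wk) ws wx))))
    · refine cp_and (cp_eq vF2 (co_add (co_mX vx) (co_nat_const 2)))
        (cp_or (cp_not (cp_presSt hPr (co_lX vx) vs vx)) ?_)
      refine cp_forall_lt (α := α × ℕ × ℕ) (n := fun q => mX q.2.2)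
        (p := fun q k => rl k = 0 → gX q.2.2 k = 0 → Wst (rt k) q.2.1 q.2.2) ?_ (co_mX vx)
      exact cp_imp (cp_eq (co_rl wk) (co_nat_const 0))
        (cp_imp (cp_eq (co_gX wx wk) (co_nat_const 0)) (cp_wst (co_rt wk) ws wx))
    · refine cp_and (cp_eq vF2 (co_add (co_mX vx) (co_nat_const 1))) ?_
      refine cp_forall_lt (α := α × ℕ × ℕ) (n := fun q => mX q.2.2)
        (p := fun q k => rl k = 0 → gX q.2.2 k = 0 →
          Wst (rs k) q.2.1 q.2.2 ∨ Wst (rs' k) q.2.1 q.2.2) ?_ (co_mX vx)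
      exact cp_imp (cp_eq (co_rl wk) (co_nat_const 0))
        (cp_imp (cp_eq (co_gX wx wk) (co_nat_const 0))
          (cp_or (cp_wst (co_rs wk) ws wx) (cp_wst (co_rs' wk) ws wx)))
    · refine cp_exists_lt (α := α × ℕ × ℕ) (n := fun q => LX q.2.2)
        (p := fun q k => (F q.1 q.2.1 q.2.2).2 = ptr q.2.2 k ∧
          ¬ (AnnAt (F q.1) q.2.1 q.2.2 k ∧ ¬ Wst (rb k) q.2.1 q.2.2)) ?_ (co_LX vx)
      exact cp_and (cp_eq wF2 (co_ptr wx wk))
        (cp_not (cp_and (cp_Ann hAnn wa ws wx wk) (cp_not (cp_wst (co_rb wk) ws wx))))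
  have hFrz : ComputablePred (fun q : α × ℕ × ℕ => Frz (F q.1) q.2.1 q.2.2) := by
    unfold Frz
    refine cp_exists_lt (α := α × ℕ × ℕ) (n := fun q => LX q.2.2)
      (p := fun q k => k < rr q.2.2 (F q.1 q.2.1 q.2.2).2 ∧ gX q.2.2 k ≠ 0 ∧
        Big (F q.1) k q.2.1 (gX q.2.2 k - 1)) ?_ (co_LX vx)
    exact cp_and (cp_lt wk (co_rr wx wF2))
      (cp_and (cp_not (cp_eq (co_gX wx wk) (co_nat_const 0)))
        (cp_Big hBig wa wk ws (co_sub (co_gX wx wk) (co_nat_const 1))))
  refine ⟨hGuard, hMvC, hFrz, ?_⟩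
  unfold nxt
  refine co_ite (cp_and hGuard hMvC) (co_ite ?_ ?_ ?_ _) vF _
  · exact cp_and (cp_eq vF2 (co_add (co_mX vx) (co_nat_const 2)))
      (cp_not (cp_presSt hPr (co_lX vx) vs vx))
  · exact (co_add vF1 (co_nat_const 1)).pair (co_add (co_LX vx) (co_nat_const 4))
  · exact vF1.pair (co_sub vF2 (co_nat_const 1))

end Pool.Agent.H64.VT
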